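import Pool.Agent.Y503.RB.Stm

/-! # Project RB, task DG: the derivative of `gmap` -/

set_option autoImplicit false

namespace Pool.Agent.Y692.RB

open scoped ContDiff RealInnerProductSpace
open Pool.Agent.Y503.RB Filter Topology

lemma rad_facts (p n : E4) (hn : ‖n‖ = 1) (hp : ‖p‖ < 1) :
    0 < 1 + ⟪p, n⟫ ∧ 0 < rad p n ∧ rad p n < 1 ∧ ‖foot p n‖ = 1 ∧
      (1 - rad p n) • foot p n = p + rad p n • n := by
  have h1 : |⟪p, n⟫| ≤ ‖p‖ * ‖n‖ := abs_real_inner_le_norm p n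
  rw [hn, mul_one] at h1
  have h2 := (abs_le.1 h1).1
  have h0 := norm_nonneg p
  have h3 : 0 < 1 + ⟪p, n⟫ := by linarith
  have h4 : 0 < 1 - ‖p‖ ^ 2 := by nlinarith
  have h5 : 0 < rad p n := by
    unfold rad
    positivity
  have h6 : rad p n < 1 := by
    unfold rad
    rw [div_lt_one (by positivity)]
    have h7 : 0 < ‖p + n‖ := by
      rw [norm_pos_iff]
      intro h
      have h8 : p = -n := eq_neg_of_add_eq_zero_left h
      rw [h8, norm_neg, hn] at hp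
      exact lt_irrefl _ hp
    have h8 : ‖p + n‖ ^ 2 = ‖p‖ ^ 2 + 2 * ⟪p, n⟫ + ‖n‖ ^ 2 := norm_add_sq_real p n
    rw [hn] at h8
    have h9 : 0 < ‖p + n‖ ^ 2 := by positivity
    linarith
  have h7 : (1 - rad p n) ≠ 0 := by linarith
  have h8 : (1 - rad p n) • foot p n = p + rad p n • n := by
    unfold foot
    rw [smul_smul, mul_inv_cancel₀ h7, one_smul]
  refine ⟨h3, h5, h6, ?_, h8⟩
  have h9 : ‖(1 - rad p n) • foot p n‖ ^ 2 = (1 - rad p n) ^ 2 := by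
    rw [h8, norm_add_sq_real, norm_smul, inner_smul_right, hn, Real.norm_eq_abs, mul_one, sq_abs]
    have h10 : rad p n * (2 * (1 + ⟪p, n⟫)) = 1 - ‖p‖ ^ 2 := by
      unfold rad
      exact div_mul_cancel₀ _ (by positivity)
    linear_combination h10
  rw [norm_smul, mul_pow, Real.norm_eq_abs, sq_abs] at h9
  have h10 : ‖foot p n‖ ^ 2 = 1 := by
    have h11 : (1 - rad p n) ^ 2 ≠ 0 := pow_ne_zero 2 h7
    apply mul_left_cancel₀ h11
    rw [h9, mul_one]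
  nlinarith [norm_nonneg (foot p n)]

variable {φ N₁ N₂ : ℂ → E4} {U : Set ℂ}

lemma inner_self_one {x : E4} (h : ‖x‖ = 1) : ⟪x, x⟫ = 1 := by
  rw [real_inner_self_eq_norm_sq, h, one_pow]

lemma nor_inner (fr : Frame φ N₁ N₂ U) {z : ℂ} (hz : z ∈ U) (s t : ℝ) :
    ⟪nor N₁ N₂ s z, nor N₁ N₂ t z⟫ = Real.cos s * Real.cos t + Real.sin s * Real.sin t := by
  have h1 := inner_self_one (fr.unit₁ z hz)
  have h2 := inner_self_one (fr.unit₂ z hz)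
  have h3 := fr.orth z hz
  have h4 : ⟪N₂ z, N₁ z⟫ = 0 := by rw [real_inner_comm]; exact h3
  unfold nor
  rw [inner_add_left, inner_add_right, inner_add_right]
  simp only [inner_smul_left, inner_smul_right, h1, h2, h3, h4, conj_trivial]
  ring

lemma nor_norm (fr : Frame φ N₁ N₂ U) {z : ℂ} (hz : z ∈ U) (t : ℝ) : ‖nor N₁ N₂ t z‖ = 1 := by
  have h1 := nor_inner fr hz t t
  rw [real_inner_self_eq_norm_sq] at h1
  have h2 := Real.sin_sq_add_cos_sq t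
  have h3 : ‖nor N₁ N₂ t z‖ ^ 2 = 1 := by rw [h1, ← h2]; ring
  nlinarith [norm_nonneg (nor N₁ N₂ t z)]

lemma nor_tan (fr : Frame φ N₁ N₂ U) {z : ℂ} (hz : z ∈ U) (t : ℝ) (v : ℂ) :
    ⟪nor N₁ N₂ t z, d1 φ v z⟫ = 0 := by
  unfold nor
  rw [inner_add_left, inner_smul_left, inner_smul_left, fr.norm₁ z hz, fr.norm₂ z hz]
  simp

/-- differentiation of a constant inner product -/
lemma inner_const {f g : ℂ → E4} {U : Set ℂ} (hU : IsOpen U) {z : ℂ} (hz : z ∈ U)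
    (hf : DifferentiableAt ℝ f z) (hg : DifferentiableAt ℝ g z) {c : ℝ}
    (h : ∀ w ∈ U, ⟪f w, g w⟫ = c) (v : ℂ) :
    ⟪f z, fderiv ℝ g z v⟫ + ⟪fderiv ℝ f z v, g z⟫ = 0 := by
  have h1 : (fun w => ⟪f w, g w⟫) =ᶠ[𝓝 z] fun _ => c := by
    filter_upwards [hU.mem_nhds hz] with w hw
    exact h w hw
  have h2 := h1.fderiv_eq (𝕜 := ℝ)
  have h3 := fderiv_inner_apply ℝ hf hg v
  rw [h2] at h3
  simpa using h3.symm

theorem dg : St_DG := by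
  intro φ N₁ N₂ U pt fr θ z hz n m G ρ
  have hU := pt.isOpen.mem_nhds hz
  have cφ : ContDiffAt ℝ ∞ φ z := pt.smooth.contDiffAt hU
  have c1 : ContDiffAt ℝ ∞ N₁ z := fr.smooth₁.contDiffAt hU
  have c2 : ContDiffAt ℝ ∞ N₂ z := fr.smooth₂.contDiffAt hU
  have dφ : DifferentiableAt ℝ φ z := cφ.differentiableAt (by simp)
  have dN1 : DifferentiableAt ℝ N₁ z := c1.differentiableAt (by simp)
  have dN2 : DifferentiableAt ℝ N₂ z := c2.differentiableAt (by simp)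
  have ddφ : ∀ u : ℂ, DifferentiableAt ℝ (fun w => fderiv ℝ φ w u) z := by
    intro u
    have h1 : ContDiffAt ℝ 1 (fderiv ℝ φ) z := cφ.fderiv_right (by norm_cast)
    exact (h1.differentiableAt (by simp)).clm_apply (differentiableAt_const u)
  -- smoothness
  have cs : ContDiffAt ℝ ∞ (fun q : ℝ × ℂ => q.2) (θ, z) := contDiffAt_snd
  have cf : ContDiffAt ℝ ∞ (fun q : ℝ × ℂ => q.1) (θ, z) := contDiffAt_fst
  have cP : ContDiffAt ℝ ∞ (fun q : ℝ × ℂ => φ q.2) (θ, z) :=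
    ContDiffAt.comp (θ, z) (g := φ) (f := fun q : ℝ × ℂ => q.2) cφ cs
  have cN1 : ContDiffAt ℝ ∞ (fun q : ℝ × ℂ => N₁ q.2) (θ, z) :=
    ContDiffAt.comp (θ, z) (g := N₁) (f := fun q : ℝ × ℂ => q.2) c1 cs
  have cN2 : ContDiffAt ℝ ∞ (fun q : ℝ × ℂ => N₂ q.2) (θ, z) :=
    ContDiffAt.comp (θ, z) (g := N₂) (f := fun q : ℝ × ℂ => q.2) c2 cs
  have cN : ContDiffAt ℝ ∞ (fun q : ℝ × ℂ => nor N₁ N₂ q.1 q.2) (θ, z) := by
    unfold nor
    exact ((Real.contDiff_cos.contDiffAt.comp (θ, z) cf).smul cN1).add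
      ((Real.contDiff_sin.contDiffAt.comp (θ, z) cf).smul cN2)
  have hn1 : ‖n‖ = 1 := nor_norm fr hz θ
  have hp1 : ‖φ z‖ < 1 := pt.inside z hz
  obtain ⟨r1, r2, r3, r4, r5⟩ := rad_facts (φ z) n hn1 hp1
  have cR : ContDiffAt ℝ ∞ (fun q : ℝ × ℂ => rad (φ q.2) (nor N₁ N₂ q.1 q.2)) (θ, z) := by
    unfold rad
    refine ContDiffAt.div (contDiffAt_const.sub (cP.norm_sq ℝ)) (contDiffAt_const.mul
      (contDiffAt_const.add (cP.inner ℝ cN))) ?_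
    have : (2 : ℝ) * (1 + ⟪φ z, nor N₁ N₂ θ z⟫) ≠ 0 := by
      have : 0 < 1 + ⟪φ z, nor N₁ N₂ θ z⟫ := r1
      positivity
    exact this
  have cG : ContDiffAt ℝ ∞ (gmap φ N₁ N₂) (θ, z) := by
    have h1 : ContDiffAt ℝ ∞ (fun q : ℝ × ℂ => (1 - rad (φ q.2) (nor N₁ N₂ q.1 q.2))⁻¹ •
        (φ q.2 + rad (φ q.2) (nor N₁ N₂ q.1 q.2) • nor N₁ N₂ q.1 q.2)) (θ, z) := by
      refine ContDiffAt.smul (ContDiffAt.inv (contDiffAt_const.sub cR) ?_) (cP.add (cR.smul cN))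
      have : (1 : ℝ) - rad (φ z) (nor N₁ N₂ θ z) ≠ 0 := by
        have : rad (φ z) (nor N₁ N₂ θ z) < 1 := r3
        linarith
      exact this
    exact h1
  have hev : ∀ᶠ q : ℝ × ℂ in 𝓝 (θ, z), q.2 ∈ U :=
    (continuous_snd.tendsto (θ, z)).eventually hU
  -- derivatives
  have HP : HasFDerivAt (fun q : ℝ × ℂ => φ q.2)
      ((fderiv ℝ φ z).comp (ContinuousLinearMap.snd ℝ ℝ ℂ)) (θ, z) :=
    HasFDerivAt.comp (θ, z) (g := φ) (f := fun q : ℝ × ℂ => q.2) dφ.hasFDerivAt hasFDerivAt_snd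
  have H1 : HasFDerivAt (fun q : ℝ × ℂ => N₁ q.2)
      ((fderiv ℝ N₁ z).comp (ContinuousLinearMap.snd ℝ ℝ ℂ)) (θ, z) :=
    HasFDerivAt.comp (θ, z) (g := N₁) (f := fun q : ℝ × ℂ => q.2) dN1.hasFDerivAt hasFDerivAt_snd
  have H2 : HasFDerivAt (fun q : ℝ × ℂ => N₂ q.2)
      ((fderiv ℝ N₂ z).comp (ContinuousLinearMap.snd ℝ ℝ ℂ)) (θ, z) :=
    HasFDerivAt.comp (θ, z) (g := N₂) (f := fun q : ℝ × ℂ => q.2) dN2.hasFDerivAt hasFDerivAt_snd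
  have Hc : HasFDerivAt (fun q : ℝ × ℂ => Real.cos q.1)
      ((-Real.sin θ) • ContinuousLinearMap.fst ℝ ℝ ℂ) (θ, z) :=
    HasDerivAt.comp_hasFDerivAt (θ, z) (h₂ := Real.cos) (f := fun q : ℝ × ℂ => q.1)
      (Real.hasDerivAt_cos θ) hasFDerivAt_fst
  have Hs : HasFDerivAt (fun q : ℝ × ℂ => Real.sin q.1)
      ((Real.cos θ) • ContinuousLinearMap.fst ℝ ℝ ℂ) (θ, z) :=
    HasDerivAt.comp_hasFDerivAt (θ, z) (h₂ := Real.sin) (f := fun q : ℝ × ℂ => q.1)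
      (Real.hasDerivAt_sin θ) hasFDerivAt_fst
  obtain ⟨n', hn', hn'v, hn'1⟩ : ∃ n' : ℝ × ℂ →L[ℝ] E4,
      HasFDerivAt (fun q : ℝ × ℂ => nor N₁ N₂ q.1 q.2) n' (θ, z) ∧
      (∀ v : ℂ, n' (0, v) = Real.cos θ • fderiv ℝ N₁ z v + Real.sin θ • fderiv ℝ N₂ z v) ∧
      n' (1, 0) = m := by
    refine ⟨_, (Hc.smul H1).add (Hs.smul H2), ?_, ?_⟩
    · intro v
      simp
    · show _ = nor N₁ N₂ (θ + Real.pi / 2) z
      unfold nor
      rw [Real.cos_add_pi_div_two, Real.sin_add_pi_div_two]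
      simp
  obtain ⟨ρ', hρ'⟩ := (cR.differentiableAt (by simp))
  have hG' := (cG.differentiableAt (by simp)).hasFDerivAt
  have key : ∀ q : ℝ × ℂ, (1 - ρ) • fderiv ℝ (gmap φ N₁ N₂) (θ, z) q =
      (fderiv ℝ φ z q.2 + ρ • n' q) + ρ' q • (n + G) := by
    have e1 : HasFDerivAt (fun q : ℝ × ℂ => (1 - rad (φ q.2) (nor N₁ N₂ q.1 q.2)) •
        gmap φ N₁ N₂ q) _ (θ, z) := (hρ'.const_sub 1).smul hG'
    have e2 : HasFDerivAt (fun q : ℝ × ℂ => φ q.2 + rad (φ q.2) (nor N₁ N₂ q.1 q.2) •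
        nor N₁ N₂ q.1 q.2) _ (θ, z) := HP.add (hρ'.smul hn')
    have e3 : (fun q : ℝ × ℂ => (1 - rad (φ q.2) (nor N₁ N₂ q.1 q.2)) • gmap φ N₁ N₂ q) =ᶠ[𝓝 (θ, z)]
        fun q : ℝ × ℂ => φ q.2 + rad (φ q.2) (nor N₁ N₂ q.1 q.2) • nor N₁ N₂ q.1 q.2 := by
      filter_upwards [hev] with q hq
      exact (rad_facts (φ q.2) (nor N₁ N₂ q.1 q.2) (nor_norm fr hq q.1) (pt.inside _ hq)).2.2.2.2
    have e4 := e1.unique (e2.congr_of_eventuallyEq e3)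
    intro q
    have e5 := congrArg (fun L : ℝ × ℂ →L[ℝ] E4 => L q) e4
    have e6 : (1 - ρ) • fderiv ℝ (gmap φ N₁ N₂) (θ, z) q + (-(ρ' q)) • G =
        fderiv ℝ φ z q.2 + (ρ • n' q + ρ' q • n) := e5
    rw [smul_add]
    rw [neg_smul] at e6
    have e7 := eq_add_of_add_neg_eq e6
    rw [e7]
    abel
  -- inner products
  have o11 := inner_const pt.isOpen hz dN1 dN1 (c := 1) fun w hw => inner_self_one (fr.unit₁ w hw)
  have o22 := inner_const pt.isOpen hz dN2 dN2 (c := 1) fun w hw => inner_self_one (fr.unit₂ w hw)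
  have o12 := inner_const pt.isOpen hz dN1 dN2 fr.orth
  have p1 : ∀ u v : ℂ, ⟪N₁ z, d2 φ v u z⟫ + ⟪fderiv ℝ N₁ z v, d1 φ u z⟫ = 0 := fun u v =>
    inner_const pt.isOpen hz dN1 (ddφ u) (fun w hw => fr.norm₁ w hw u) v
  have p2 : ∀ u v : ℂ, ⟪N₂ z, d2 φ v u z⟫ + ⟪fderiv ℝ N₂ z v, d1 φ u z⟫ = 0 := fun u v =>
    inner_const pt.isOpen hz dN2 (ddφ u) (fun w hw => fr.norm₂ w hw u) v
  refine ⟨cG, hn1, nor_norm fr hz _, ?_, r4, r2, r3, fun v => ⟨nor_tan fr hz _ v, nor_tan fr hz _ v⟩,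
    ?_, ?_, ?_⟩
  · have h1 := nor_inner fr hz θ (θ + Real.pi / 2)
    rw [Real.cos_add_pi_div_two, Real.sin_add_pi_div_two] at h1
    have h2 : ⟪n, m⟫ = Real.cos θ * -Real.sin θ + Real.sin θ * Real.cos θ := h1
    rw [h2]
    ring
  · intro q
    have e1 : (fun q => ⟪gmap φ N₁ N₂ q, gmap φ N₁ N₂ q⟫) =ᶠ[𝓝 (θ, z)] fun _ => (1 : ℝ) := by
      filter_upwards [hev] with q hq
      exact inner_self_one
        (rad_facts (φ q.2) (nor N₁ N₂ q.1 q.2) (nor_norm fr hq q.1) (pt.inside _ hq)).2.2.2.1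
    have e2 := e1.fderiv_eq (𝕜 := ℝ)
    have e3 := fderiv_inner_apply ℝ (cG.differentiableAt (by simp))
      (cG.differentiableAt (by simp)) q
    rw [e2] at e3
    have e4 : ⟪fderiv ℝ (gmap φ N₁ N₂) (θ, z) q, gmap φ N₁ N₂ (θ, z)⟫ =
        ⟪gmap φ N₁ N₂ (θ, z), fderiv ℝ (gmap φ N₁ N₂) (θ, z) q⟫ := real_inner_comm _ _
    rw [e4] at e3
    have e5 : (0 : ℝ) = ⟪gmap φ N₁ N₂ (θ, z), fderiv ℝ (gmap φ N₁ N₂) (θ, z) q⟫ +
        ⟪gmap φ N₁ N₂ (θ, z), fderiv ℝ (gmap φ N₁ N₂) (θ, z) q⟫ := by simpa using e3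
    show ⟪gmap φ N₁ N₂ (θ, z), fderiv ℝ (gmap φ N₁ N₂) (θ, z) q⟫ = 0
    linarith
  · intro v
    refine ⟨fderiv ℝ φ z v + ρ • n' (0, v), ρ' (0, v), key (0, v), ?_, ?_⟩
    · rw [inner_add_right, inner_smul_right, hn'v]
      have h1 : ⟪n, fderiv ℝ φ z v⟫ = 0 := nor_tan fr hz θ v
      have h2 : ⟪n, Real.cos θ • fderiv ℝ N₁ z v + Real.sin θ • fderiv ℝ N₂ z v⟫ = 0 := by
        show ⟪Real.cos θ • N₁ z + Real.sin θ • N₂ z, _⟫ = 0
        have a1 := o11 v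
        have a2 := o22 v
        have a3 := o12 v
        have c1 : ⟪fderiv ℝ N₁ z v, N₁ z⟫ = ⟪N₁ z, fderiv ℝ N₁ z v⟫ := real_inner_comm _ _
        have c2 : ⟪fderiv ℝ N₂ z v, N₂ z⟫ = ⟪N₂ z, fderiv ℝ N₂ z v⟫ := real_inner_comm _ _
        have c3 : ⟪fderiv ℝ N₁ z v, N₂ z⟫ = ⟪N₂ z, fderiv ℝ N₁ z v⟫ := real_inner_comm _ _
        rw [c1] at a1
        rw [c2] at a2
        rw [c3] at a3
        simp only [inner_add_left, inner_add_right, inner_smul_left, inner_smul_right,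
          conj_trivial]
        linear_combination (Real.cos θ ^ 2 / 2) * a1 + (Real.sin θ ^ 2 / 2) * a2 +
          (Real.cos θ * Real.sin θ) * a3
      rw [h1, h2, mul_zero, add_zero]
    · intro u
      have b1 := p1 u v
      have b2 := p2 u v
      rw [inner_add_right, inner_smul_right, hn'v, inner_add_right, inner_smul_right,
        inner_smul_right]
      have b3 : ⟪d1 φ u z, fderiv ℝ N₁ z v⟫ = ⟪fderiv ℝ N₁ z v, d1 φ u z⟫ := real_inner_comm _ _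
      have b4 : ⟪d1 φ u z, fderiv ℝ N₂ z v⟫ = ⟪fderiv ℝ N₂ z v, d1 φ u z⟫ := real_inner_comm _ _
      have b5 : sff φ n v u z = Real.cos θ * ⟪N₁ z, d2 φ v u z⟫ +
          Real.sin θ * ⟪N₂ z, d2 φ v u z⟫ := by
        show ⟪Real.cos θ • N₁ z + Real.sin θ • N₂ z, d2 φ v u z⟫ = _
        rw [inner_add_left, inner_smul_left, inner_smul_left]
        simp
      have b6 : ⟪d1 φ u z, fderiv ℝ φ z v⟫ = fff φ v u z := real_inner_comm _ _
      unfold exc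
      rw [b5, b6, b3, b4]
      show fff φ v u z + ρ * _ = -(ρ * _ - fff φ v u z)
      linear_combination (ρ * Real.cos θ) * b1 + (ρ * Real.sin θ) * b2
  · refine ⟨ρ' (1, 0), ?_⟩
    have h1 := key (1, 0)
    rw [hn'1] at h1
    rw [h1]
    simp

end Pool.Agent.Y692.RB
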