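import Pool.Agent.H781R2.Pars

/-!
# Representation functions of additive bases of order two: the oscillation is at least `2 √m`
-/

set_option autoImplicit false

namespace Pool.Agent.Y692.RB

open MeasureTheory Filter Topology Set
open scoped Real

/-- the number of ordered representations of `n` as a sum of two elements of `A` -/
noncomputable def rep (A : Set ℕ) (n : ℕ) : ℕ :=
  {p : ℕ × ℕ | p.1 ∈ A ∧ p.2 ∈ A ∧ p.1 + p.2 = n}.ncard

open Classical in
/-- indicator function -/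
noncomputable def ind (A : Set ℕ) (n : ℕ) : ℝ := if n ∈ A then 1 else 0

lemma ind_mul (A : Set ℕ) (n : ℕ) :
    ∑ p ∈ Finset.HasAntidiagonal.antidiagonal n, ind A p.1 * ind A p.2 = rep A n := by
  classical
  have h1 : {p : ℕ × ℕ | p.1 ∈ A ∧ p.2 ∈ A ∧ p.1 + p.2 = n} =
      ((Finset.HasAntidiagonal.antidiagonal n).filter fun p => p.1 ∈ A ∧ p.2 ∈ A : Finset (ℕ × ℕ)) := by
    ext p
    simp only [Set.mem_ofPred_eq, Finset.coe_filter, Finset.HasAntidiagonal.mem_antidiagonal]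
    tauto
  rw [rep, h1, Set.ncard_coe_finset, Finset.card_filter]
  push_cast
  refine Finset.sum_congr rfl fun p _ => ?_
  unfold ind
  by_cases h2 : p.1 ∈ A <;> by_cases h3 : p.2 ∈ A <;> simp [h2, h3]

lemma ind_sq (A : Set ℕ) (n : ℕ) : ind A n ^ 2 = ind A n := by
  unfold ind
  split_ifs <;> simp

lemma ind_abs (A : Set ℕ) (n : ℕ) : |ind A n| ≤ 1 := by
  unfold ind
  split_ifs <;> simp

lemma ind_nonneg (A : Set ℕ) (n : ℕ) : 0 ≤ ind A n := by
  unfold ind
  split_ifs <;> simp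

/-- power series on the circle of radius `x` -/
noncomputable def ser (α : ℕ → ℝ) (x θ : ℝ) : ℂ :=
  ∑' n, (α n : ℂ) * ((x : ℂ) * Complex.exp (θ * Complex.I)) ^ n

lemma norm_pt {x θ : ℝ} (hx : 0 ≤ x) : ‖(x : ℂ) * Complex.exp (θ * Complex.I)‖ = x := by
  rw [norm_mul, Complex.norm_exp_ofReal_mul_I, mul_one, Complex.norm_real, Real.norm_of_nonneg hx]

lemma term_norm {x θ : ℝ} (hx : 0 ≤ x) (a : ℝ) (n : ℕ) :
    ‖(a : ℂ) * ((x : ℂ) * Complex.exp (θ * Complex.I)) ^ n‖ = |a| * x ^ n := by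
  rw [norm_mul, norm_pow, norm_pt hx, Complex.norm_real, Real.norm_eq_abs]

lemma summable_aux {α : ℕ → ℝ} {B x : ℝ} (hα : ∀ n, |α n| ≤ B) (hx0 : 0 ≤ x) (hx1 : x < 1) :
    Summable fun n => |α n| * x ^ n := by
  refine Summable.of_nonneg_of_le (fun n => by positivity) (fun n => ?_)
    ((summable_geometric_of_lt_one hx0 hx1).mul_left B)
  exact mul_le_mul_of_nonneg_right (hα n) (by positivity)

lemma ser_summable {α : ℕ → ℝ} {B x : ℝ} (hα : ∀ n, |α n| ≤ B) (hx0 : 0 ≤ x) (hx1 : x < 1)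
    (θ : ℝ) : Summable fun n => ‖(α n : ℂ) * ((x : ℂ) * Complex.exp (θ * Complex.I)) ^ n‖ := by
  simp only [term_norm hx0]
  exact summable_aux hα hx0 hx1

lemma parseval {α : ℕ → ℝ} {B x : ℝ} (hα : ∀ n, |α n| ≤ B) (hx0 : 0 ≤ x) (hx1 : x < 1) :
    Continuous (ser α x) ∧
      ∫ θ in (-π)..π, ‖ser α x θ‖ ^ 2 = 2 * π * ∑' n, α n ^ 2 * (x ^ 2) ^ n := by
  have h := H781.pars_10059 (fun n => (α n : ℂ) * (x : ℂ) ^ n) (by
    have := summable_aux hα hx0 hx1
    refine this.congr fun n => ?_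
    rw [norm_mul, norm_pow, Complex.norm_real, Complex.norm_real, Real.norm_eq_abs,
      Real.norm_of_nonneg hx0]) (ser α x) (fun θ => by
    have h1 : (fun n : ℕ => (α n : ℂ) * (x : ℂ) ^ n * Complex.exp (((n : ℕ) : ℤ) * θ * Complex.I)) =
        fun n => (α n : ℂ) * ((x : ℂ) * Complex.exp (θ * Complex.I)) ^ n := by
      funext n
      rw [mul_pow, ← Complex.exp_nat_mul, mul_assoc]
      congr 3
      push_cast
      ring
    rw [h1]
    exact (ser_summable hα hx0 hx1 θ).of_norm.hasSum)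
  refine ⟨h.1, ?_⟩
  rw [← h.2.tsum_eq, ← tsum_mul_left]
  refine tsum_congr fun n => ?_
  rw [norm_mul, norm_pow, Complex.norm_real, Complex.norm_real, Real.norm_eq_abs,
      Real.norm_of_nonneg hx0, mul_pow, sq_abs, ← pow_mul, ← pow_mul, mul_comm n 2]

lemma ser_sq (A : Set ℕ) {x : ℝ} (hx0 : 0 ≤ x) (hx1 : x < 1) (θ : ℝ) :
    ser (ind A) x θ ^ 2 = ser (fun n => (rep A n : ℝ)) x θ := by
  have h := ser_summable (ind_abs A) hx0 hx1 θ
  rw [sq]
  unfold ser
  rw [tsum_mul_tsum_eq_tsum_sum_antidiagonal_of_summable_norm h h]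
  refine tsum_congr fun n => ?_
  change _ = (((rep A n : ℕ) : ℝ) : ℂ) * _
  rw [← ind_mul A n]
  push_cast
  rw [Finset.sum_mul]
  refine Finset.sum_congr rfl fun p hp => ?_
  rw [Finset.HasAntidiagonal.mem_antidiagonal] at hp
  rw [← hp, pow_add]
  ring

lemma real_sq (A : Set ℕ) {y : ℝ} (hy0 : 0 ≤ y) (hy1 : y < 1) :
    (∑' n, ind A n * y ^ n) ^ 2 = ∑' n, (rep A n : ℝ) * y ^ n := by
  have h : Summable fun n => ‖ind A n * y ^ n‖ := by
    have := summable_aux (ind_abs A) hy0 hy1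
    refine this.congr fun n => ?_
    rw [norm_mul, Real.norm_eq_abs, Real.norm_of_nonneg (pow_nonneg hy0 n)]
  rw [sq, tsum_mul_tsum_eq_tsum_sum_antidiagonal_of_summable_norm h h]
  refine tsum_congr fun n => ?_
  rw [← ind_mul A n, Finset.sum_mul]
  refine Finset.sum_congr rfl fun p hp => ?_
  rw [Finset.HasAntidiagonal.mem_antidiagonal] at hp
  rw [← hp, pow_add]
  ring

/-- the geometric series -/
lemma ser_const {x : ℝ} (hx0 : 0 ≤ x) (hx1 : x < 1) (c θ : ℝ) :
    ser (fun _ => c) x θ = c / (1 - (x : ℂ) * Complex.exp (θ * Complex.I)) := by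
  unfold ser
  rw [tsum_mul_left, tsum_geometric_of_norm_lt_one (by rw [norm_pt hx0]; exact hx1)]
  rw [div_eq_mul_inv]

lemma norm_one_sub {x θ δ : ℝ} (hx0 : 0 ≤ x) (hδ0 : 0 < δ) (hδ : δ ≤ π)
    (hcos : Real.cos θ ≤ Real.cos δ) :
    Real.sin δ ≤ ‖1 - (x : ℂ) * Complex.exp (θ * Complex.I)‖ := by
  have h1 : ‖1 - (x : ℂ) * Complex.exp (θ * Complex.I)‖ ^ 2 = 1 - 2 * x * Real.cos θ + x ^ 2 := by
    rw [← Complex.normSq_eq_norm_sq, Complex.normSq_apply]
    simp only [Complex.sub_re, Complex.one_re, Complex.mul_re, Complex.ofReal_re,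
      Complex.ofReal_im, Complex.sub_im, Complex.one_im, Complex.mul_im,
      Complex.exp_ofReal_mul_I_re, Complex.exp_ofReal_mul_I_im]
    have := Real.sin_sq_add_cos_sq θ
    nlinarith
  have h2 : Real.sin δ ^ 2 ≤ ‖1 - (x : ℂ) * Complex.exp (θ * Complex.I)‖ ^ 2 := by
    rw [h1]
    have h3 := Real.sin_sq_add_cos_sq δ
    have h4 : x * Real.cos θ ≤ x * Real.cos δ := mul_le_mul_of_nonneg_left hcos hx0
    nlinarith [sq_nonneg (x - Real.cos δ)]
  exact abs_le_of_sq_le_sq' h2 (norm_nonneg _) |>.2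

lemma amgm {u t : ℝ} (ht : 0 < t) : u ≤ t / 2 + u ^ 2 / (2 * t) := by
  rw [div_add_div _ _ (by norm_num) (by positivity), le_div_iff₀ (by positivity)]
  nlinarith [sq_nonneg (u - t)]

/-- `L¹` bound from `L²` bound -/
lemma l1_le {F : ℝ → ℂ} (hF : Continuous F) {t : ℝ} (ht : 0 < t) :
    ∫ θ in (-π)..π, ‖F θ‖ ≤ π * t + (∫ θ in (-π)..π, ‖F θ‖ ^ 2) / (2 * t) := by
  have h1 : ∫ θ in (-π)..π, ‖F θ‖ ≤ ∫ θ in (-π)..π, (t / 2 + ‖F θ‖ ^ 2 / (2 * t)) := by
    refine intervalIntegral.integral_mono_on (by linarith [Real.pi_pos])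
      (hF.norm.intervalIntegrable _ _)
      ((by fun_prop : Continuous fun θ => t / 2 + ‖F θ‖ ^ 2 / (2 * t)).intervalIntegrable _ _) ?_
    intro θ _
    exact amgm ht
  refine h1.trans (le_of_eq ?_)
  rw [intervalIntegral.integral_add (by simp)
    ((by fun_prop : Continuous fun θ => ‖F θ‖ ^ 2 / (2 * t)).intervalIntegrable _ _),
    intervalIntegral.integral_div]
  simp
  ring

/-- the kernel is small in `L¹` -/
lemma l1_kernel {c δ x t : ℝ} (hc : 0 ≤ c) (hδ0 : 0 < δ) (hδ : δ < π) (hx0 : 0 ≤ x) (hx1 : x < 1)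
    (ht : 0 < t) :
    ∫ θ in (-π)..π, ‖ser (fun _ => c) x θ‖ ≤
      2 * π * (c / Real.sin δ) + δ * t + (∫ θ in (-π)..π, ‖ser (fun _ => c) x θ‖ ^ 2) / (2 * t) := by
  set F := ser (fun _ => c) x with hFdef
  have hF : Continuous F := (parseval (B := |c|) (fun _ => le_rfl) hx0 hx1).1
  have hsin : 0 < Real.sin δ := Real.sin_pos_of_pos_of_lt_pi hδ0 hδ
  have hpt : ∀ θ ∈ Icc (-π) π, ‖F θ‖ ≤
      c / Real.sin δ + ((Icc (-δ) δ).indicator (fun _ => t / 2) θ + ‖F θ‖ ^ 2 / (2 * t)) := by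
    intro θ hθ
    by_cases h : θ ∈ Icc (-δ) δ
    · rw [indicator_of_mem h]
      have h1 := amgm (u := ‖F θ‖) ht
      have h2 : 0 ≤ c / Real.sin δ := by positivity
      linarith
    · rw [indicator_of_notMem h, zero_add]
      have h3 : δ ≤ |θ| := by
        by_contra hcon
        push Not at hcon
        exact h (abs_le.mp hcon.le)
      have h4 : Real.cos θ ≤ Real.cos δ := by
        rw [← Real.cos_abs θ]
        exact Real.cos_le_cos_of_nonneg_of_le_pi hδ0.le (abs_le.mpr hθ) h3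
      have h5 := norm_one_sub hx0 hδ0 hδ.le h4
      have h6 : ‖F θ‖ ≤ c / Real.sin δ := by
        rw [hFdef, ser_const hx0 hx1, norm_div, Complex.norm_real, Real.norm_of_nonneg hc]
        exact div_le_div_of_nonneg_left hc hsin h5
      have h7 : 0 ≤ ‖F θ‖ ^ 2 / (2 * t) := by positivity
      linarith
  have hi1 : IntervalIntegrable (fun θ => (Icc (-δ) δ).indicator (fun _ => t / 2) θ) volume (-π) π := by
    rw [intervalIntegrable_iff]
    exact (integrableOn_const (by simp) (by simp)).indicator measurableSet_Icc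
  have hi2 : IntervalIntegrable (fun θ => ‖F θ‖ ^ 2 / (2 * t)) volume (-π) π :=
    (by fun_prop : Continuous fun θ => ‖F θ‖ ^ 2 / (2 * t)).intervalIntegrable _ _
  have h1 : ∫ θ in (-π)..π, ‖F θ‖ ≤ ∫ θ in (-π)..π,
      (c / Real.sin δ + ((Icc (-δ) δ).indicator (fun _ => t / 2) θ + ‖F θ‖ ^ 2 / (2 * t))) :=
    intervalIntegral.integral_mono_on (by linarith [Real.pi_pos])
      (hF.norm.intervalIntegrable _ _) (by
        exact (intervalIntegrable_const).add (hi1.add hi2)) hpt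
  refine h1.trans (le_of_eq ?_)
  rw [intervalIntegral.integral_add intervalIntegrable_const (hi1.add hi2),
    intervalIntegral.integral_add hi1 hi2, intervalIntegral.integral_div]
  have h2 : ∫ θ in (-π)..π, (Icc (-δ) δ).indicator (fun _ => t / 2) θ = δ * t := by
    rw [intervalIntegral.integral_of_le (by linarith [Real.pi_pos]),
      MeasureTheory.integral_indicator measurableSet_Icc, Measure.restrict_restrict measurableSet_Icc]
    have h3 : Icc (-δ) δ ∩ Ioc (-π) π = Icc (-δ) δ := by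
      rw [inter_eq_left]
      intro θ hθ
      exact ⟨by linarith [hθ.1], by linarith [hθ.2]⟩
    rw [h3]
    simp
    rw [max_eq_left (by linarith)]
    ring
  rw [h2]
  simp
  ring

/-- the key inequality, for one radius -/
lemma key (A : Set ℕ) {m n₀ : ℕ} {B c h x δ s : ℝ} (hB : ∀ n, |(rep A n : ℝ)| ≤ B)
    (hm : ∀ n, n₀ ≤ n → (m : ℝ) ≤ rep A n) (hc : 0 < c) (hh : 0 < h)
    (hosc : ∀ n, n₀ ≤ n → |(rep A n : ℝ) - c| ≤ h) (hδ0 : 0 < δ) (hδ : δ < π)
    (hx0 : 0 < x) (hx1 : x < 1) (hs : 0 < s) :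
    2 * π * √(m * (x ^ 2) ^ n₀) ≤ 2 * π * (c / Real.sin δ) * √(1 - x ^ 2) + δ * (s * c) + π * c / s +
      2 * π * h + π * (∑ n ∈ Finset.range n₀, ((rep A n : ℝ) - c) ^ 2) / h * √(1 - x ^ 2) := by
  set y := x ^ 2 with hy
  have hy0 : 0 < y := by positivity
  have hy1 : y < 1 := by
    rw [hy]
    nlinarith
  have h1y : 0 < 1 - y := by linarith
  set w := √(1 - y) with hw
  have hw0 : 0 < w := Real.sqrt_pos.mpr h1y
  have hw2 : w ^ 2 = 1 - y := Real.sq_sqrt h1y.le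
  have hw1 : w ≤ 1 := by
    rw [hw]
    exact Real.sqrt_le_one.mpr (by linarith)
  have hBc : ∀ n, |(rep A n : ℝ) - c| ≤ B + c := fun n => by
    have h1 := hB n
    have h2 := abs_sub (rep A n : ℝ) c
    rw [abs_of_pos hc] at h2
    linarith
  -- the three functions
  set F := ser (ind A) x with hF
  set D := ser (fun _ => c) x with hD
  set E := ser (fun n => (rep A n : ℝ) - c) x with hE
  obtain ⟨hFc, hFp⟩ := parseval (x := x) (ind_abs A) hx0.le hx1
  obtain ⟨hDc, hDp⟩ := parseval (x := x) (α := fun _ => c) (B := |c|) (fun _ => le_rfl) hx0.le hx1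
  obtain ⟨hEc, hEp⟩ := parseval (x := x) (α := fun n => (rep A n : ℝ) - c) hBc hx0.le hx1
  have hdecomp : ∀ θ, F θ ^ 2 = D θ + E θ := by
    intro θ
    rw [hF, ser_sq A hx0.le hx1, hD, hE]
    unfold ser
    rw [← (ser_summable (α := fun _ => c) (B := |c|) (fun _ => le_rfl) hx0.le hx1 θ).of_norm.tsum_add
      (ser_summable (α := fun n => (rep A n : ℝ) - c) hBc hx0.le hx1 θ).of_norm]
    refine tsum_congr fun n => ?_
    push_cast
    ring
  have hle : ∫ θ in (-π)..π, ‖F θ‖ ^ 2 ≤ (∫ θ in (-π)..π, ‖D θ‖) + ∫ θ in (-π)..π, ‖E θ‖ := by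
    rw [← intervalIntegral.integral_add (hDc.norm.intervalIntegrable _ _)
      (hEc.norm.intervalIntegrable _ _)]
    refine intervalIntegral.integral_mono_on (by linarith [Real.pi_pos])
      ((hFc.norm.pow 2).intervalIntegrable _ _)
      ((hDc.norm.add hEc.norm).intervalIntegrable _ _) fun θ _ => ?_
    rw [← norm_pow, hdecomp]
    exact norm_add_le _ _
  -- left side
  have hsqn : ∀ n, ind A n ^ 2 * y ^ n = ind A n * y ^ n := fun n => by rw [ind_sq]
  have hG0 : 0 ≤ ∑' n, ind A n * y ^ n :=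
    tsum_nonneg fun n => mul_nonneg (ind_nonneg A n) (by positivity)
  have hG2 : (m * y ^ n₀) / (1 - y) ≤ (∑' n, ind A n * y ^ n) ^ 2 := by
    rw [real_sq A hy0.le hy1]
    have hsum : Summable fun n => (rep A n : ℝ) * y ^ n := by
      refine (summable_aux hB hy0.le hy1).congr fun n => ?_
      rw [abs_of_nonneg (Nat.cast_nonneg _)]
    rw [← hsum.sum_add_tsum_nat_add n₀]
    have h1 : 0 ≤ ∑ n ∈ Finset.range n₀, (rep A n : ℝ) * y ^ n :=
      Finset.sum_nonneg fun n _ => by positivity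
    have h2 : (m * y ^ n₀) / (1 - y) ≤ ∑' n, (rep A (n + n₀) : ℝ) * y ^ (n + n₀) := by
      have h3 : (m * y ^ n₀) / (1 - y) = ∑' n, ((m : ℝ) * y ^ n₀) * y ^ n := by
        rw [tsum_mul_left, tsum_geometric_of_lt_one hy0.le hy1, div_eq_mul_inv]
      rw [h3]
      refine Summable.tsum_le_tsum (fun n => ?_)
        ((summable_geometric_of_lt_one hy0.le hy1).mul_left _)
        ((summable_nat_add_iff n₀).mpr hsum)
      have h4 := hm (n + n₀) (by omega)
      have h5 : ((m : ℝ) * y ^ n₀) * y ^ n = m * y ^ (n + n₀) := by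
        rw [pow_add]
        ring
      rw [h5]
      exact mul_le_mul_of_nonneg_right h4 (by positivity)
    linarith
  have hG : √(m * y ^ n₀) / w ≤ ∑' n, ind A n * y ^ n := by
    rw [hw, ← Real.sqrt_div (by positivity)]
    exact Real.sqrt_le_iff.mpr ⟨hG0, hG2⟩
  -- the error term
  have hV : ∑' n, ((rep A n : ℝ) - c) ^ 2 * y ^ n ≤
      (∑ n ∈ Finset.range n₀, ((rep A n : ℝ) - c) ^ 2) + h ^ 2 / (1 - y) := by
    have hsum : Summable fun n => ((rep A n : ℝ) - c) ^ 2 * y ^ n := by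
      refine (summable_aux (α := fun n => ((rep A n : ℝ) - c) ^ 2) (B := (B + c) ^ 2)
        (fun n => ?_) hy0.le hy1).congr fun n => ?_
      · rw [abs_of_nonneg (sq_nonneg _), ← sq_abs]
        exact pow_le_pow_left₀ (abs_nonneg _) (hBc n) 2
      · rw [abs_of_nonneg (sq_nonneg _)]
    rw [← hsum.sum_add_tsum_nat_add n₀]
    refine add_le_add ?_ ?_
    · refine Finset.sum_le_sum fun n _ => ?_
      have : y ^ n ≤ 1 := pow_le_one₀ hy0.le hy1.le
      nlinarith [sq_nonneg ((rep A n : ℝ) - c)]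
    · have h3 : h ^ 2 / (1 - y) = ∑' n, h ^ 2 * y ^ n := by
        rw [tsum_mul_left, tsum_geometric_of_lt_one hy0.le hy1, div_eq_mul_inv]
      rw [h3]
      refine Summable.tsum_le_tsum (fun n => ?_)
        ((summable_nat_add_iff n₀).mpr hsum)
        ((summable_geometric_of_lt_one hy0.le hy1).mul_left _)
      have h4 := hosc (n + n₀) (by omega)
      have h5 : ((rep A (n + n₀) : ℝ) - c) ^ 2 ≤ h ^ 2 := by
        rw [← sq_abs]
        exact pow_le_pow_left₀ (abs_nonneg _) h4 2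
      have h6 : y ^ (n + n₀) ≤ y ^ n := pow_le_pow_of_le_one hy0.le hy1.le (by omega)
      calc _ ≤ h ^ 2 * y ^ (n + n₀) := mul_le_mul_of_nonneg_right h5 (by positivity)
        _ ≤ _ := mul_le_mul_of_nonneg_left h6 (by positivity)
  have hEl := l1_le hEc (t := h / w) (by positivity)
  have hDl := l1_kernel (c := c) (δ := δ) (x := x) (t := s * c / w) hc.le hδ0 hδ hx0.le hx1
    (by positivity)
  rw [← hD] at hDl
  rw [hDp] at hDl
  rw [hEp] at hEl
  have hDsum : ∑' n : ℕ, c ^ 2 * y ^ n = c ^ 2 / (1 - y) := by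
    rw [tsum_mul_left, tsum_geometric_of_lt_one hy0.le hy1, div_eq_mul_inv]
  rw [hDsum] at hDl
  rw [hFp] at hle
  rw [show (∑' n, ind A n ^ 2 * (x ^ 2) ^ n) = ∑' n, ind A n * y ^ n from tsum_congr hsqn] at hle
  -- multiply by `w`
  have e1 : 2 * π * √(m * y ^ n₀) ≤ w * (2 * π * ∑' n, ind A n * y ^ n) := by
    have : √(m * y ^ n₀) ≤ (∑' n, ind A n * y ^ n) * w := by
      rwa [div_le_iff₀ hw0] at hG
    nlinarith [Real.pi_pos]
  have e2 : w * (∫ θ in (-π)..π, ‖D θ‖) ≤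
      2 * π * (c / Real.sin δ) * w + δ * (s * c) + π * c / s := by
    calc w * (∫ θ in (-π)..π, ‖D θ‖) ≤ w * _ := mul_le_mul_of_nonneg_left hDl hw0.le
      _ = 2 * π * (c / Real.sin δ) * w + δ * (s * c) + π * c / s := by
        rw [← hw2]
        have := (Real.sin_pos_of_pos_of_lt_pi hδ0 hδ).ne'
        field_simp
  have e3 : w * (∫ θ in (-π)..π, ‖E θ‖) ≤ 2 * π * h +
      π * (∑ n ∈ Finset.range n₀, ((rep A n : ℝ) - c) ^ 2) / h * w := by
    set K := ∑ n ∈ Finset.range n₀, ((rep A n : ℝ) - c) ^ 2 with hK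
    have hK0 : 0 ≤ K := Finset.sum_nonneg fun n _ => sq_nonneg _
    have hEl' : ∫ θ in (-π)..π, ‖E θ‖ ≤ π * (h / w) +
        2 * π * (K + h ^ 2 / (1 - y)) / (2 * (h / w)) := by
      refine hEl.trans ?_
      gcongr
    calc w * (∫ θ in (-π)..π, ‖E θ‖) ≤ w * _ := mul_le_mul_of_nonneg_left hEl' hw0.le
      _ = 2 * π * h + π * K / h * w ^ 2 := by
        rw [← hw2]
        field_simp
        ring
      _ ≤ 2 * π * h + π * K / h * w := by
        have : w ^ 2 ≤ w := by nlinarith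
        have h7 : 0 ≤ π * K / h := by positivity
        nlinarith [mul_le_mul_of_nonneg_left this h7]
  have e4 := mul_le_mul_of_nonneg_left hle hw0.le
  rw [mul_add] at e4
  linarith

/-- the limit of the key inequality -/
lemma key_lim (A : Set ℕ) {m n₀ : ℕ} {B c h : ℝ} (hB : ∀ n, |(rep A n : ℝ)| ≤ B)
    (hm : ∀ n, n₀ ≤ n → (m : ℝ) ≤ rep A n) (hc : 0 < c) (hh : 0 < h)
    (hosc : ∀ n, n₀ ≤ n → |(rep A n : ℝ) - c| ≤ h) : √m ≤ h := by
  have h1 : ∀ δ s : ℝ, 0 < δ → δ < π → 0 < s →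
      2 * π * √m ≤ δ * (s * c) + π * c / s + 2 * π * h := by
    intro δ s hδ0 hδ hs
    have hx : Tendsto (fun x : ℝ => x) (𝓝[<] 1) (𝓝 1) := tendsto_id.mono_left nhdsWithin_le_nhds
    have hL : Tendsto (fun x : ℝ => 2 * π * √(m * (x ^ 2) ^ n₀)) (𝓝[<] 1)
        (𝓝 (2 * π * √(m * ((1 : ℝ) ^ 2) ^ n₀))) :=
      ((((hx.pow 2).pow n₀).const_mul _).sqrt).const_mul _
    have hW : Tendsto (fun x : ℝ => √(1 - x ^ 2)) (𝓝[<] 1) (𝓝 (√(1 - (1 : ℝ) ^ 2))) :=
      (tendsto_const_nhds.sub (hx.pow 2)).sqrt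
    have hR : Tendsto (fun x : ℝ => 2 * π * (c / Real.sin δ) * √(1 - x ^ 2) + δ * (s * c) +
        π * c / s + 2 * π * h +
        π * (∑ n ∈ Finset.range n₀, ((rep A n : ℝ) - c) ^ 2) / h * √(1 - x ^ 2)) (𝓝[<] 1)
        (𝓝 (2 * π * (c / Real.sin δ) * √(1 - (1 : ℝ) ^ 2) + δ * (s * c) + π * c / s + 2 * π * h +
        π * (∑ n ∈ Finset.range n₀, ((rep A n : ℝ) - c) ^ 2) / h * √(1 - (1 : ℝ) ^ 2))) :=
      ((((hW.const_mul _).add_const _).add_const _).add_const _).add (hW.const_mul _)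
    have hev : ∀ᶠ x : ℝ in 𝓝[<] 1, 0 < x ∧ x < 1 := by
      have : Ioo (0 : ℝ) 1 ∈ 𝓝[<] (1 : ℝ) := Ioo_mem_nhdsLT one_pos
      filter_upwards [this] with x hx'
      exact hx'
    have h2 := le_of_tendsto_of_tendsto hL hR (by
      filter_upwards [hev] with x hx'
      exact key A hB hm hc hh hosc hδ0 hδ hx'.1 hx'.2 hs)
    simpa using h2
  -- let `s` be large, then `δ` small
  by_contra hcon
  push Not at hcon
  have hπ := Real.pi_pos
  obtain ⟨η, hη, hη2⟩ : ∃ η : ℝ, 0 < η ∧ η = π * (√m - h) := ⟨_, by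
    have : 0 < √m - h := by linarith
    positivity, rfl⟩
  set s := 2 * π * c / η with hs
  have hs0 : 0 < s := by positivity
  set δ := min 1 (η / (4 * s * c)) with hδ
  have hδ0 : 0 < δ := lt_min one_pos (by positivity)
  have hδ1 : δ < π := (min_le_left _ _).trans_lt (by linarith [Real.pi_gt_three])
  have h3 := h1 δ s hδ0 hδ1 hs0
  have h4 : δ * (s * c) ≤ η / 4 := by
    have : δ ≤ η / (4 * s * c) := min_le_right _ _
    calc δ * (s * c) ≤ η / (4 * s * c) * (s * c) := mul_le_mul_of_nonneg_right this (by positivity)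
      _ = η / 4 := by field_simp
  have h5 : π * c / s = η / 2 := by
    rw [hs]
    field_simp
  rw [h5] at h3
  nlinarith

/-- If all large `n` have at least `m ≥ 1` representations, then infinitely many `n` have at least
`m + 2 √m` representations. -/
theorem frequently_le (A : Set ℕ) (m : ℕ) (hm0 : 1 ≤ m) (hm : ∀ᶠ n in atTop, m ≤ rep A n) :
    ∃ᶠ n in atTop, (m : ℝ) + 2 * √m ≤ rep A n := by
  by_contra hcon
  rw [Filter.not_frequently] at hcon
  obtain ⟨n₀, hn₀⟩ := eventually_atTop.mp (hm.and hcon)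
  have hsm : 0 < √(m : ℝ) := Real.sqrt_pos.mpr (by exact_mod_cast hm0)
  -- the largest value
  set M := ⌈(m : ℝ) + 2 * √m⌉₊ - 1 with hM
  have hceil : 0 < ⌈(m : ℝ) + 2 * √m⌉₊ := Nat.ceil_pos.mpr (by positivity)
  have hMlt : (M : ℝ) < m + 2 * √m := by
    rw [← Nat.lt_ceil]
    omega
  have hup : ∀ n, n₀ ≤ n → rep A n ≤ M := fun n hn => by
    have h1 := (hn₀ n hn).2
    push Not at h1
    have h2 := Nat.lt_ceil.mpr h1
    omega
  have hmM : m ≤ M := (hn₀ n₀ le_rfl).1.trans (hup n₀ le_rfl)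
  -- a bound for all values
  obtain ⟨B, hB⟩ : ∃ B : ℝ, ∀ n, |(rep A n : ℝ)| ≤ B := by
    refine ⟨M + ∑ n ∈ Finset.range n₀, (rep A n : ℝ), fun n => ?_⟩
    rw [abs_of_nonneg (Nat.cast_nonneg _)]
    have h0 : 0 ≤ ∑ n ∈ Finset.range n₀, (rep A n : ℝ) :=
      Finset.sum_nonneg fun _ _ => Nat.cast_nonneg _
    rcases Nat.lt_or_ge n n₀ with h | h
    · have := Finset.single_le_sum (f := fun n => (rep A n : ℝ))
        (fun _ _ => Nat.cast_nonneg _) (Finset.mem_range.mpr h)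
      have h7 : (rep A n : ℝ) ≤ ∑ n ∈ Finset.range n₀, (rep A n : ℝ) := this
      have : (0 : ℝ) ≤ M := Nat.cast_nonneg _
      linarith
    · have : (rep A n : ℝ) ≤ M := by exact_mod_cast hup n h
      linarith
  set c : ℝ := ((m : ℝ) + M) / 2 with hc
  set h : ℝ := (((M : ℝ) - m) / 2 + √m) / 2 with hh
  have hmM' : (m : ℝ) ≤ M := by exact_mod_cast hmM
  have hm1 : (1 : ℝ) ≤ m := by exact_mod_cast hm0
  have hc0 : 0 < c := by rw [hc]; linarith
  have hh0 : 0 < h := by rw [hh]; linarith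
  have hh1 : h < √m := by rw [hh]; linarith
  have hh2 : ((M : ℝ) - m) / 2 ≤ h := by rw [hh]; linarith
  have := key_lim A hB (m := m) (n₀ := n₀) (c := c) (h := h)
    (fun n hn => by exact_mod_cast (hn₀ n hn).1) hc0 hh0 (fun n hn => by
      have h1 : (m : ℝ) ≤ rep A n := by exact_mod_cast (hn₀ n hn).1
      have h2 : (rep A n : ℝ) ≤ M := by exact_mod_cast hup n hn
      rw [abs_le]
      constructor <;> rw [hc] <;> linarith)
  linarith

end Pool.Agent.Y692.RB
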